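import Pool.Agent.W275.UB.Den

/-!
# Integral roots are bounded polynomially
-/

set_option autoImplicit false

namespace Pool.Agent.W616.UB.Root

open MvPolynomial

lemma bnd {ι : Type} (c : MvPolynomial ι ℤ) :
    ∃ C K : ℕ, ∀ (H : ℕ) (v : ι → ℤ), 1 ≤ H → (∀ i, |v i| ≤ (H : ℤ)) →
      |eval v c| ≤ (C * H ^ K : ℕ) := by
  induction c using MvPolynomial.induction_on with
  | C a =>
    refine ⟨a.natAbs, 0, ?_⟩
    intro H v _ _
    rw [eval_C]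
    push_cast
    simp
  | add p q hp hq =>
    obtain ⟨C₁, K₁, h₁⟩ := hp
    obtain ⟨C₂, K₂, h₂⟩ := hq
    refine ⟨C₁ + C₂, K₁ + K₂, ?_⟩
    intro H v hH hv
    have h3 := h₁ H v hH hv
    have h4 := h₂ H v hH hv
    rw [map_add]
    have h5 : C₁ * H ^ K₁ + C₂ * H ^ K₂ ≤ (C₁ + C₂) * H ^ (K₁ + K₂) := by
      have h6 : H ^ K₁ ≤ H ^ (K₁ + K₂) := Nat.pow_le_pow_right hH (by omega)
      have h7 : H ^ K₂ ≤ H ^ (K₁ + K₂) := Nat.pow_le_pow_right hH (by omega)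
      rw [add_mul]
      exact add_le_add (Nat.mul_le_mul_left _ h6) (Nat.mul_le_mul_left _ h7)
    calc |eval v p + eval v q| ≤ |eval v p| + |eval v q| := abs_add_le _ _
      _ ≤ ((C₁ * H ^ K₁ : ℕ) : ℤ) + ((C₂ * H ^ K₂ : ℕ) : ℤ) := add_le_add h3 h4
      _ = ((C₁ * H ^ K₁ + C₂ * H ^ K₂ : ℕ) : ℤ) := by push_cast; ring
      _ ≤ _ := by exact_mod_cast h5
  | mul_X p i hp =>
    obtain ⟨C₁, K₁, h₁⟩ := hp
    refine ⟨C₁, K₁ + 1, ?_⟩
    intro H v hH hv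
    have h3 := h₁ H v hH hv
    rw [map_mul, eval_X, abs_mul]
    calc |eval v p| * |v i| ≤ ((C₁ * H ^ K₁ : ℕ) : ℤ) * (H : ℤ) :=
          mul_le_mul h3 (hv i) (abs_nonneg _) (by positivity)
      _ = _ := by push_cast; ring

lemma bndsum {ι : Type} (f : ℕ → MvPolynomial ι ℤ) (r : ℕ) :
    ∃ C K : ℕ, ∀ (H : ℕ) (v : ι → ℤ), 1 ≤ H → (∀ i, |v i| ≤ (H : ℤ)) →
      ∑ i ∈ Finset.range r, |eval v (f i)| ≤ (C * H ^ K : ℕ) := by
  induction r with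
  | zero =>
    refine ⟨0, 0, ?_⟩
    intro H v _ _
    simp
  | succ r ih =>
    obtain ⟨C₁, K₁, h₁⟩ := ih
    obtain ⟨C₂, K₂, h₂⟩ := bnd (f r)
    refine ⟨C₁ + C₂, K₁ + K₂, ?_⟩
    intro H v hH hv
    have h3 := h₁ H v hH hv
    have h4 := h₂ H v hH hv
    rw [Finset.sum_range_succ]
    have h5 : C₁ * H ^ K₁ + C₂ * H ^ K₂ ≤ (C₁ + C₂) * H ^ (K₁ + K₂) := by
      have h6 : H ^ K₁ ≤ H ^ (K₁ + K₂) := Nat.pow_le_pow_right hH (by omega)
      have h7 : H ^ K₂ ≤ H ^ (K₁ + K₂) := Nat.pow_le_pow_right hH (by omega)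
      rw [add_mul]
      exact add_le_add (Nat.mul_le_mul_left _ h6) (Nat.mul_le_mul_left _ h7)
    calc _ ≤ ((C₁ * H ^ K₁ : ℕ) : ℤ) + ((C₂ * H ^ K₂ : ℕ) : ℤ) := add_le_add h3 h4
      _ = ((C₁ * H ^ K₁ + C₂ * H ^ K₂ : ℕ) : ℤ) := by push_cast; ring
      _ ≤ _ := by exact_mod_cast h5

lemma rootbd (Q : Polynomial ℤ) (hQ : Q.Monic) (T : ℤ) (hT : Q.eval T = 0) :
    |T| ≤ 1 + ∑ i ∈ Finset.range Q.natDegree, |Q.coeff i| := by
  have hS : 0 ≤ ∑ i ∈ Finset.range Q.natDegree, |Q.coeff i| :=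
    Finset.sum_nonneg (fun i _ => abs_nonneg _)
  by_cases h0 : T = 0
  · rw [h0, abs_zero]
    linarith
  have h1 : 1 ≤ |T| := Int.one_le_abs h0
  rw [Polynomial.eval_eq_sum_range, Finset.sum_range_succ, hQ.coeff_natDegree, one_mul] at hT
  rcases Nat.eq_zero_or_pos Q.natDegree with h2 | h2
  · rw [h2] at hT
    simp at hT
  obtain ⟨r, hr⟩ : ∃ r, Q.natDegree = r + 1 := ⟨Q.natDegree - 1, by omega⟩
  rw [hr] at hT hS ⊢
  have h3 : |T| ^ (r + 1) ≤ (∑ i ∈ Finset.range (r + 1), |Q.coeff i|) * |T| ^ r := by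
    have h4 : T ^ (r + 1) = -∑ i ∈ Finset.range (r + 1), Q.coeff i * T ^ i := by linarith
    rw [← abs_pow, h4, abs_neg]
    calc |∑ i ∈ Finset.range (r + 1), Q.coeff i * T ^ i|
        ≤ ∑ i ∈ Finset.range (r + 1), |Q.coeff i * T ^ i| := Finset.abs_sum_le_sum_abs _ _
      _ ≤ ∑ i ∈ Finset.range (r + 1), |Q.coeff i| * |T| ^ r := by
          apply Finset.sum_le_sum
          intro i hi
          rw [abs_mul, abs_pow]
          apply mul_le_mul_of_nonneg_left _ (abs_nonneg _)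
          exact pow_le_pow_right₀ h1 (by have := Finset.mem_range.mp hi; omega)
      _ = _ := by rw [Finset.sum_mul]
  rw [pow_succ'] at h3
  have h5 : |T| ≤ ∑ i ∈ Finset.range (r + 1), |Q.coeff i| :=
    le_of_mul_le_mul_right h3 (by positivity)
  linarith

theorem main : Pool.Agent.W275.UB.S_root := by
  intro ι _ P hP
  obtain ⟨C, K, h⟩ := bndsum (fun i => P.coeff i) P.natDegree
  refine ⟨C + 1, K, ?_⟩
  intro H v T hH hv hT
  have h1 := h H v hH hv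
  have hm : (P.map (eval v)).Monic := hP.map _
  have h2 := rootbd _ hm T hT
  rw [hP.natDegree_map] at h2
  simp only [Polynomial.coeff_map] at h2
  have h3 : (1 : ℤ) ≤ ((H ^ K : ℕ) : ℤ) := by
    exact_mod_cast Nat.one_le_pow K H hH
  calc |T| ≤ 1 + ∑ i ∈ Finset.range P.natDegree, |(eval v) (P.coeff i)| := h2
    _ ≤ ((H ^ K : ℕ) : ℤ) + ((C * H ^ K : ℕ) : ℤ) := add_le_add h3 h1
    _ = _ := by push_cast; ring

end Pool.Agent.W616.UB.Root
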